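import Mathlib
import Pool.Agent.H67R4.SR.Trees

set_option autoImplicit false

/-!
# Primitive elements of the free group of rank two are sign coherent
-/

namespace Pool.Agent.Q103.CV2

open Pool.Agent.H67R3.FSR Pool.Agent.H472R3 Pool.Agent.H67R4.SR

def mkA (a b c d : Bool) : Lt 2 → Bool :=
  fun p => if p.1 = 0 then (if p.2 then a else b) else (if p.2 then c else d)

theorem mkA_surj (f : Lt 2 → Bool) : ∃ a b c d, f = mkA a b c d := by
  refine ⟨f (0,true), f (0,false), f (1,true), f (1,false), ?_⟩
  funext p
  obtain ⟨i, s⟩ := p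
  fin_cases i <;> cases s <;> rfl

set_option synthInstance.maxSize 100000 in
set_option synthInstance.maxHeartbeats 4000000 in
theorem sep_aux : ∀ (x : Lt 2) (a b c d : Bool), (∃ p, p ≠ x ∧ (mkA a b c d) p = true) →
    (∃ q, q ≠ x ∧ (mkA a b c d) q = false) → ∀ y : Lt 2, ∃ a' b' c' d' : Bool,
      (mkA a' b' c' d') y ≠ (mkA a' b' c' d') (y.1, !y.2) ∧
      ∀ u v : Lt 2, (mkA a' b' c' d') u = true → v ≠ (u.1, !u.2) →
        ((u.1, !u.2) ≠ x → v ≠ x → (mkA a b c d) (u.1, !u.2) = (mkA a b c d) v) →
        (mkA a' b' c' d') v = true := by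
  decide +kernel

/-- A closed set of letters separating `y` from its inverse. -/
theorem sep (x : Lt 2) (col : Lt 2 → Bool) (h1 : ∃ p, p ≠ x ∧ col p = true)
    (h2 : ∃ q, q ≠ x ∧ col q = false) (y : Lt 2) : ∃ A : Lt 2 → Bool, A y ≠ A (inv' y) ∧
      ∀ u v, A u = true → v ≠ inv' u → (inv' u ≠ x → v ≠ x → col (inv' u) = col v) →
        A v = true := by
  obtain ⟨a, b, c, d, rfl⟩ := mkA_surj col
  obtain ⟨a', b', c', d', h⟩ := sep_aux x a b c d h1 h2 y
  exact ⟨mkA a' b' c' d', h⟩

variable {N : ℕ}

/-- `y` is followed by `z` in the cyclic word of `g`. -/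
def Turn (g : FreeGroup (Fin N)) (y z : Lt N) : Prop :=
  ∃ L, Rep g L ∧ L.getLast? = some y ∧ L.head? = some z

theorem turn_idx {g : FreeGroup (Fin N)} {L : List (Lt N)} (h : Rep g L) {k : ℕ}
    (hk : k < L.length) : Turn g (L[k]) (L[(k + 1) % L.length]'(Nat.mod_lt _ (by omega))) := by
  have e : L.take (k + 1) ++ L.drop (k + 1) = L := List.take_append_drop _ _
  have h1 : Rep g (L.drop (k + 1) ++ L.take (k + 1)) := by
    apply Rep.rot
    rw [e]
    exact h
  refine ⟨_, h1, ?_, ?_⟩
  · have hne : L.take (k + 1) ≠ [] := by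
      intro hn
      have := congrArg List.length hn
      rw [List.length_take, List.length_nil] at this
      omega
    rw [List.getLast?_append_of_ne_nil _ hne, List.take_succ_eq_append_getElem hk]
    exact List.getLast?_concat
  · by_cases h2 : k + 1 < L.length
    · rw [List.drop_eq_getElem_cons h2]
      simp only [List.cons_append, List.head?_cons, Nat.mod_eq_of_lt h2]
    · have h3 : k + 1 = L.length := by omega
      have h4 : L.drop (k + 1) = [] := by rw [h3]; exact List.drop_length
      rw [h4, List.nil_append, h3, List.take_length, List.head?_eq_getElem?]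
      simp only [Nat.mod_self]
      rw [List.getElem?_eq_getElem (by omega)]

theorem closed_all {g : FreeGroup (Fin N)} {L : List (Lt N)} (h : Rep g L)
    {A : Lt N → Bool} (hA : ∀ y z, Turn g y z → A y = true → A z = true)
    {y : Lt N} (hy : y ∈ L) (hAy : A y = true) : ∀ z ∈ L, A z = true := by
  obtain ⟨k, hk, rfl⟩ := List.mem_iff_getElem.mp hy
  have hpos : 0 < L.length := by omega
  have key : ∀ m : ℕ, A (L[(k + m) % L.length]'(Nat.mod_lt _ hpos)) = true := by
    intro m
    induction m with
    | zero =>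
      have e : (k + 0) % L.length = k := by rw [add_zero]; exact Nat.mod_eq_of_lt hk
      simp only [e]
      exact hAy
    | succ m ih =>
      have h1 := turn_idx h (Nat.mod_lt (k + m) hpos)
      have h2 := hA _ _ h1 ih
      have e : ((k + m) % L.length + 1) % L.length = (k + (m + 1)) % L.length := by
        rw [Nat.mod_add_mod, add_assoc]
      simp only [e] at h2
      exact h2
  intro z hz
  obtain ⟨i, hi, rfl⟩ := List.mem_iff_getElem.mp hz
  have h3 := key (L.length - k + i)
  have e : (k + (L.length - k + i)) % L.length = i := by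
    have : k + (L.length - k + i) = L.length + i := by omega
    rw [this, Nat.add_mod_left]
    exact Nat.mod_eq_of_lt hi
  simp only [e] at h3
  exact h3

/-- The letters of a cyclically reduced word of a primitive element: no letter occurs together with
its inverse. -/
theorem coherent {g : FreeGroup (Fin 2)} (hg : Primitive g) {L : List (Lt 2)} (h : Rep g L)
    {y : Lt 2} (hy : y ∈ L) : inv' y ∉ L := by
  intro hy'
  obtain ⟨φ, hφ⟩ := hg.exists_aut 0
  obtain ⟨x, col, h1, h2, hc⟩ := cut le_rfl φ 0 hφ
  obtain ⟨A, hA, hcl⟩ := sep x col h1 h2 y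
  have hT : ∀ u v, Turn g u v → A u = true → A v = true := by
    rintro u v ⟨L', hL', hl, hh⟩ hu
    obtain ⟨z, R, rfl⟩ := List.exists_cons_of_ne_nil hL'.1
    simp only [List.head?_cons, Option.some.injEq] at hh
    subst hh
    refine hcl u z hu ?_ (hc z R u hL' hl)
    have h3 := (cyc_iff.mp hL'.2.1).2 u hl z rfl
    rw [reduced_iff] at h3
    exact h3
  apply hA
  cases h3 : A y <;> cases h4 : A (inv' y)
  · rfl
  · have := closed_all h hT hy' h4 y hy
    rw [h3] at this
    exact absurd this (by simp)
  · have := closed_all h hT hy h3 _ hy'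
    rw [h4] at this
    exact absurd this (by simp)
  · rfl

end Pool.Agent.Q103.CV2
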