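import Mathlib
import Pool.Agent.Q103.CV2.Coh

set_option autoImplicit false

/-!
# Making finitely many primitive elements positive
-/

namespace Pool.Agent.Q103.CV2

open Pool.Agent.H67R3.FSR Pool.Agent.H472R3 Pool.Agent.H67R4.SR

abbrev F2 := FreeGroup (Fin 2)

/-- The first generator. -/
def ga : F2 := FreeGroup.of 0

/-- The second generator. -/
def gb : F2 := FreeGroup.of 1

/-- The automorphism `a ↦ a`, `b ↦ a a b aⁿ`. -/
def alpha (n : ℕ) : F2 ≃* F2 :=
  MonoidHom.toMulEquiv (FreeGroup.lift ![ga, ga * ga * gb * ga ^ n])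
    (FreeGroup.lift ![ga, ga⁻¹ * ga⁻¹ * gb * (ga ^ n)⁻¹])
    (by
      apply FreeGroup.ext_hom
      intro i
      fin_cases i
      · simp [ga]
      · simp [ga, gb, mul_assoc])
    (by
      apply FreeGroup.ext_hom
      intro i
      fin_cases i
      · simp [ga]
      · simp [ga, gb, mul_assoc])

theorem alpha_a (n : ℕ) : alpha n ga = ga := by
  simp [alpha, ga]

theorem alpha_b (n : ℕ) : alpha n gb = ga * ga * gb * ga ^ n := by
  simp [alpha, gb]

/-- The two words `a` and `a a b`. -/
def uv : Bool → F2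
  | false => ga
  | true => ga * ga * gb

def Pos (p : F2) : Prop := ∃ l : List Bool, (l.map uv).prod = p

theorem Pos.one : Pos 1 := ⟨[], rfl⟩

theorem Pos.mul {p q : F2} (hp : Pos p) (hq : Pos q) : Pos (p * q) := by
  obtain ⟨l, rfl⟩ := hp
  obtain ⟨m, rfl⟩ := hq
  exact ⟨l ++ m, by simp⟩

theorem pos_a : Pos ga := ⟨[false], by simp [uv]⟩

theorem pos_aab : Pos (ga * ga * gb) := ⟨[true], by simp [uv]⟩

theorem pos_pow (m : ℕ) : Pos (ga ^ m) := by
  induction m with
  | zero => rw [pow_zero]; exact Pos.one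
  | succ m ih => rw [pow_succ]; exact ih.mul pos_a

theorem pos_of_list (n : ℕ) : ∀ (L : List (Lt 2)) (m : ℕ), (1, false) ∉ L → L.length ≤ m →
    L.length ≤ n → Pos (ga ^ m * alpha n (FreeGroup.mk L))
  | [], m, _, _, _ => by
    change Pos (ga ^ m * alpha n 1)
    rw [map_one, mul_one]
    exact pos_pow m
  | y :: L, m, h, hm, hn => by
    have h1 : (1, false) ∉ L := fun h' => h (List.mem_cons_of_mem _ h')
    rw [List.length_cons] at hm hn
    rw [mk_cons', map_mul]
    obtain ⟨i, s⟩ := y
    fin_cases i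
    · cases s
      · have e : alpha n (lt ((0 : Fin 2), false)) = ga⁻¹ := by
          rw [lt_false, map_inv]
          rw [show (FreeGroup.of (0 : Fin 2)) = ga from rfl, alpha_a]
        obtain ⟨k, rfl⟩ : ∃ k, m = k + 1 := ⟨m - 1, by omega⟩
        have ih := pos_of_list n L k h1 (by omega) (by omega)
        have e2 : ga ^ (k + 1) * (alpha n (lt ((0 : Fin 2), false)) * alpha n (FreeGroup.mk L)) =
            ga ^ k * alpha n (FreeGroup.mk L) := by
          rw [e, pow_succ]; group
        exact e2 ▸ ih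
      · have e : alpha n (lt ((0 : Fin 2), true)) = ga := by
          rw [lt_true]
          rw [show (FreeGroup.of (0 : Fin 2)) = ga from rfl, alpha_a]
        have ih := pos_of_list n L (m + 1) h1 (by omega) (by omega)
        have e2 : ga ^ m * (alpha n (lt ((0 : Fin 2), true)) * alpha n (FreeGroup.mk L)) =
            ga ^ (m + 1) * alpha n (FreeGroup.mk L) := by
          rw [e, pow_succ]; group
        exact e2 ▸ ih
    · cases s
      · exact absurd (List.mem_cons_self) h
      · have e : alpha n (lt ((1 : Fin 2), true)) = ga * ga * gb * ga ^ n := by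
          rw [lt_true]
          rw [show (FreeGroup.of (1 : Fin 2)) = gb from rfl, alpha_b]
        have ih := pos_of_list n L n h1 (by omega) (by omega)
        have e2 : ga ^ m * (alpha n (lt ((1 : Fin 2), true)) * alpha n (FreeGroup.mk L)) =
            ga ^ m * (ga * ga * gb) * (ga ^ n * alpha n (FreeGroup.mk L)) := by
          rw [e]; simp only [mul_assoc]
        exact e2 ▸ ((pos_pow m).mul pos_aab).mul ih

theorem pos_of_a (n : ℕ) : ∀ (L : List (Lt 2)), (∀ y ∈ L, y = (0, true)) →
    Pos (alpha n (FreeGroup.mk L))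
  | [], _ => by
    change Pos (alpha n 1)
    rw [map_one]
    exact Pos.one
  | y :: L, h => by
    rw [mk_cons', map_mul, h y (by simp), lt_true,
      show (FreeGroup.of (0 : Fin 2)) = ga from rfl, alpha_a]
    exact pos_a.mul (pos_of_a n L fun z hz => h z (List.mem_cons_of_mem _ hz))

/-- The element is conjugate to a nonempty product of the two words. -/
def Good (n : ℕ) (g : F2) : Prop :=
  ∃ l : List Bool, l ≠ [] ∧ IsConj (alpha n g) (l.map uv).prod

theorem good_of {n : ℕ} {g : F2} {L : List (Lt 2)} (h : Rep g L)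
    (hp : Pos (alpha n (FreeGroup.mk L))) : Good n g := by
  obtain ⟨l, hl⟩ := hp
  have hc : IsConj (alpha n g) (alpha n (FreeGroup.mk L)) := by
    obtain ⟨c, hc⟩ := isConj_iff.mp h.2.2
    rw [isConj_iff]
    exact ⟨alpha n c, by rw [← map_inv, ← map_mul, ← map_mul, hc]⟩
  refine ⟨l, ?_, by rw [hl]; exact hc⟩
  rintro rfl
  rw [← hl] at hc
  have h1 : alpha n g = 1 := isConj_one_right.mp hc.symm |>.symm ▸ rfl
  rw [map_eq_one_iff _ (alpha n).injective] at h1
  exact h.ne_one h1

theorem good_b {g : F2} {L : List (Lt 2)} (h : Rep g L) (h1 : (1, true) ∈ L)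
    (h2 : (1, false) ∉ L) {n : ℕ} (hn : L.length ≤ n) : Good n g := by
  obtain ⟨P, S, rfl⟩ := List.append_of_mem h1
  have h3 : Rep g ((1, true) :: S ++ P) := h.rot
  refine good_of h3 ?_
  have hS : (1, false) ∉ S ++ P := by
    intro hm
    apply h2
    rcases List.mem_append.mp hm with h | h
    · exact List.mem_append_right _ (List.mem_cons_of_mem _ h)
    · exact List.mem_append_left _ h
  have hlen : (S ++ P).length ≤ n := by
    simp only [List.length_append, List.length_cons] at hn ⊢
    omega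
  have := pos_of_list n (S ++ P) n hS hlen hlen
  rw [List.cons_append, mk_cons', map_mul, lt_true,
    show (FreeGroup.of (1 : Fin 2)) = gb from rfl, alpha_b, mul_assoc]
  exact pos_aab.mul this

theorem Rep.inv_rep {N : ℕ} {g : FreeGroup (Fin N)} {L : List (Lt N)} (h : Rep g L) :
    Rep g⁻¹ (FreeGroup.invRev L) := by
  refine ⟨?_, ?_, ?_⟩
  · intro hn
    apply h.1
    have := congrArg List.length hn
    rw [FreeGroup.invRev_length, List.length_nil] at this
    exact List.length_eq_zero_iff.mp this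
  · have e : FreeGroup.invRev L ++ FreeGroup.invRev L = FreeGroup.invRev (L ++ L) := by
      rw [invRev_append]
    rw [e]
    exact isReduced_invRev h.2.1
  · obtain ⟨c, hc⟩ := isConj_iff.mp h.2.2
    rw [isConj_iff, ← FreeGroup.inv_mk, ← hc]
    exact ⟨c, by group⟩

theorem mem_invRev {N : ℕ} {L : List (Lt N)} {y : Lt N} : y ∈ FreeGroup.invRev L ↔ inv' y ∈ L := by
  unfold FreeGroup.invRev
  rw [List.mem_reverse, List.mem_map]
  constructor
  · rintro ⟨x, hx, rfl⟩
    have : inv' (x.1, !x.2) = x := by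
      unfold inv'
      simp
    rw [this]
    exact hx
  · intro h
    exact ⟨inv' y, h, by unfold inv'; simp⟩

/-- For all large `n`, a primitive element or its inverse becomes positive. -/
theorem exists_pos {s : F2} (hs : Primitive s) : ∃ n0 : ℕ, ∀ n, n0 ≤ n →
    Good n s ∨ Good n s⁻¹ := by
  obtain ⟨L, hL⟩ := exists_rep hs.ne_one
  refine ⟨L.length, fun n hn => ?_⟩
  by_cases h1 : ((1 : Fin 2), true) ∈ L
  · exact Or.inl (good_b hL h1 (coherent hs hL h1) hn)
  by_cases h2 : ((1 : Fin 2), false) ∈ L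
  · right
    refine good_b (Rep.inv_rep hL) (mem_invRev.mpr h2) ?_ ?_
    · rw [mem_invRev]
      exact h1
    · rw [FreeGroup.invRev_length]
      exact hn
  have h3 : ∀ y ∈ L, y.1 = 0 := by
    rintro ⟨i, s⟩ hy
    fin_cases i
    · rfl
    · cases s
      · exact absurd hy h2
      · exact absurd hy h1
  by_cases h4 : ((0 : Fin 2), true) ∈ L
  · left
    refine good_of hL (pos_of_a n L ?_)
    have h5 := coherent hs hL h4
    rintro ⟨i, s⟩ hy
    have h6 := h3 _ hy
    simp only at h6
    subst h6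
    cases s
    · exact absurd hy h5
    · rfl
  · right
    refine good_of (Rep.inv_rep hL) (pos_of_a n _ ?_)
    intro y hy
    rw [mem_invRev] at hy
    have h6 := h3 _ hy
    obtain ⟨i, s⟩ := y
    have h7 : i = 0 := h6
    subst h7
    cases s
    · exact absurd hy h4
    · rfl

theorem exists_pos_finite {S : Set F2} (hS : S.Finite) (hp : ∀ s ∈ S, Primitive s) :
    ∃ n : ℕ, ∀ s ∈ S, Good n s ∨ Good n s⁻¹ := by
  classical
  have h : ∀ s : F2, ∃ n0 : ℕ, s ∈ S → ∀ n, n0 ≤ n → Good n s ∨ Good n s⁻¹ := by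
    intro s
    by_cases hs : s ∈ S
    · obtain ⟨n0, h0⟩ := exists_pos (hp s hs)
      exact ⟨n0, fun _ => h0⟩
    · exact ⟨0, fun h' => absurd h' hs⟩
  choose f hf using h
  refine ⟨hS.toFinset.sup f, fun s hs => hf s hs _ ?_⟩
  exact Finset.le_sup (f := f) (hS.mem_toFinset.mpr hs)

end Pool.Agent.Q103.CV2
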