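import Mathlib
import Pool.Agent.Q103.CV2.Pos

set_option autoImplicit false

/-!
# The co-volume of a free action on a tree, and how to compute it
-/

namespace Pool.Agent.Q103.CV2

open Pool.Agent.H67R3.FSR Pool.Agent.H472R3 Pool.Agent.H67R4.SR

/-- The segment between two points. -/
def Seg {T : Type} [MetricSpace T] (x y : T) : Set T := {z | dist x z + dist z y = dist x y}

/-- The quotient of the tree by the action is a finite metric graph of total length `c`: there are
finitely many nondegenerate segments `[x i, y i]` whose translates cover the tree, no point of the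
interior of one of them is moved by `g` into one of them unless `g = 1` and the two segments are
the same one, and the lengths of the segments add up to `c`. -/
def HasCovolume {N : ℕ} (A : FTree N) (c : ℝ) : Prop :=
  ∃ (k : ℕ) (x y : Fin k → A.T),
    (∀ i, x i ≠ y i) ∧
    (∀ p : A.T, ∃ (g : FreeGroup (Fin N)) (i : Fin k), g • p ∈ Seg (x i) (y i)) ∧
    (∀ (g : FreeGroup (Fin N)) (i j : Fin k) (p : A.T), p ∈ Seg (x i) (y i) → p ≠ x i → p ≠ y i →
      g • p ∈ Seg (x j) (y j) → g = 1 ∧ i = j) ∧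
    ∑ i, dist (x i) (y i) = c

section Tree

variable {T : Type} [MetricSpace T]

theorem btw_dist (h : IsRTree T) {a b p : T} (hp : dist a p + dist p b = dist a b) (q : T) :
    dist q p = max (dist q a - dist p a) (dist q b - dist p b) := by
  apply le_antisymm
  · have h1 := h.zeroHyperbolic q p a b
    rcases max_cases (dist q a + dist p b) (dist q b + dist p a) with h2 | h2
    · rw [h2.1] at h1
      apply le_max_of_le_left
      rw [dist_comm p a]
      linarith
    · rw [h2.1] at h1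
      apply le_max_of_le_right
      rw [dist_comm p a] at h1
      linarith
  · apply max_le
    · have := dist_triangle q p a
      linarith
    · have := dist_triangle q p b
      linarith

theorem seg_split (h : IsRTree T) {x y p : T} (z : T) (hp : p ∈ Seg x y) :
    p ∈ Seg x z ∨ p ∈ Seg z y := by
  have h1 := btw_dist h (hp : dist x p + dist p y = dist x y) z
  rcases max_cases (dist z x - dist p x) (dist z y - dist p y) with h2 | h2
  · left
    rw [h2.1] at h1
    change dist x p + dist p z = dist x z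
    rw [dist_comm p z, dist_comm x z, dist_comm x p, h1]
    ring
  · right
    rw [h2.1] at h1
    change dist z p + dist p y = dist z y
    rw [h1]
    ring

theorem seg_symm {x y p : T} : p ∈ Seg x y ↔ p ∈ Seg y x := by
  unfold Seg
  simp only [Set.mem_ofPred_eq]
  rw [dist_comm x p, dist_comm p y, dist_comm x y, add_comm]

theorem seg_self {x p : T} (h : p ∈ Seg x x) : p = x := by
  have h1 : dist x p + dist p x = dist x x := h
  rw [dist_self, dist_comm p x] at h1
  have := dist_nonneg (x := x) (y := p)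
  exact (dist_eq_zero.mp (by linarith : dist x p = 0)).symm

end Tree

section Rep

variable {N M : ℕ} {w : Fin M → ℝ} (hw : ∀ i, 0 ≤ w i)
  (φ : FreeGroup (Fin N) →* FreeGroup (Fin M))

/-- The point `p` of the tree represents the element `γ`. -/
def Rp (γ : FreeGroup (Fin M)) (p : (lenOf hw φ).tree.T) : Prop :=
  ∀ z : FreeGroup (Fin N), dist p (z • (lenOf hw φ).base) = wl w (γ⁻¹ * φ z)

theorem rp_base (g : FreeGroup (Fin N)) : Rp hw φ (φ g) (g • (lenOf hw φ).base) := by
  intro z
  rw [LenFn.dist_base]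
  change wl w (φ (g⁻¹ * z)) = _
  rw [map_mul, map_inv]

theorem rp_one : Rp hw φ 1 (lenOf hw φ).base := by
  have := rp_base hw φ 1
  rwa [map_one, one_smul] at this

variable {hw φ}

theorem Rp.smul {γ : FreeGroup (Fin M)} {p : (lenOf hw φ).tree.T} (h : Rp hw φ γ p)
    (g : FreeGroup (Fin N)) : Rp hw φ (φ g * γ) (g • p) := by
  intro z
  have h1 : dist (g • p) (z • (lenOf hw φ).base) = dist p ((g⁻¹ * z) • (lenOf hw φ).base) := by
    rw [← (lenOf hw φ).tree.isometric g p, ← mul_smul, mul_inv_cancel_left]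
  rw [h1, h]
  congr 1
  rw [map_mul, map_inv]
  group

/-- The tree of the group itself. -/
noncomputable abbrev TM (hw : ∀ i, 0 ≤ w i) : LenFn M := lenOf hw (MonoidHom.id _)

theorem tm_dist (a b : FreeGroup (Fin M)) :
    dist (a • (TM hw).base) (b • (TM hw).base) = wl w (a⁻¹ * b) := by
  rw [LenFn.dist_base]
  rfl

theorem Rp.dist_eq {γ γ' : FreeGroup (Fin M)} {p p' : (lenOf hw φ).tree.T} (h : Rp hw φ γ p)
    (h' : Rp hw φ γ' p') : dist p' p = wl w (γ'⁻¹ * γ) := by
  obtain ⟨a, b, hab⟩ := (lenOf hw φ).span p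
  have e1 := btw_dist (lenOf hw φ).tree.isRTree hab p'
  have hab' : dist (φ a • (TM hw).base) (γ • (TM hw).base) +
      dist (γ • (TM hw).base) (φ b • (TM hw).base) =
      dist (φ a • (TM hw).base) (φ b • (TM hw).base) := by
    rw [dist_comm (φ a • (TM hw).base), tm_dist, tm_dist, tm_dist, ← h a, ← h b, ← map_inv,
      ← map_mul]
    rw [dist_comm (a • (lenOf hw φ).base)] at hab
    rw [hab, LenFn.dist_base]
    rfl
  have e2 := btw_dist (TM hw).tree.isRTree hab' (γ' • (TM hw).base)
  rw [e1, h' a, h' b, h a, h b, ← tm_dist (hw := hw) γ' γ, e2, tm_dist, tm_dist, tm_dist, tm_dist]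

theorem exists_rp (a b : FreeGroup (Fin N)) (γ : FreeGroup (Fin M))
    (h : wl w (γ⁻¹ * φ a) + wl w (γ⁻¹ * φ b) = wl w ((φ a)⁻¹ * φ b)) : ∃ q, Rp hw φ γ q := by
  have hd : dist (a • (lenOf hw φ).base) (b • (lenOf hw φ).base) = wl w ((φ a)⁻¹ * φ b) :=
    (rp_base hw φ a) b
  obtain ⟨f, f0, f1, f2⟩ := (lenOf hw φ).tree.isRTree.geodesic (a • (lenOf hw φ).base)
    (b • (lenOf hw φ).base)
  have n1 : 0 ≤ wl w (γ⁻¹ * φ a) := W_nonneg hw _
  have n2 : 0 ≤ wl w (γ⁻¹ * φ b) := W_nonneg hw _
  have m1 : wl w (γ⁻¹ * φ a) ∈ Set.Icc 0 (dist (a • (lenOf hw φ).base)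
      (b • (lenOf hw φ).base)) := ⟨n1, by rw [hd]; linarith⟩
  have g1 : dist (f (wl w (γ⁻¹ * φ a))) (a • (lenOf hw φ).base) = wl w (γ⁻¹ * φ a) := by
    have := f2 _ m1 0 ⟨le_rfl, dist_nonneg⟩
    rw [f0, sub_zero, abs_of_nonneg n1] at this
    exact this
  have g2 : dist (f (wl w (γ⁻¹ * φ a))) (b • (lenOf hw φ).base) = wl w (γ⁻¹ * φ b) := by
    have := f2 _ m1 _ ⟨dist_nonneg, le_rfl⟩
    rw [f1, abs_sub_comm, hd, abs_of_nonneg (by linarith)] at this
    rw [this]
    linarith
  refine ⟨f (wl w (γ⁻¹ * φ a)), fun z => ?_⟩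
  have e1 := btw_dist (lenOf hw φ).tree.isRTree (p := f (wl w (γ⁻¹ * φ a)))
    (a := a • (lenOf hw φ).base) (b := b • (lenOf hw φ).base)
    (by rw [dist_comm (a • (lenOf hw φ).base), g1, g2, hd, h]) (z • (lenOf hw φ).base)
  have hab' : dist (φ a • (TM hw).base) (γ • (TM hw).base) +
      dist (γ • (TM hw).base) (φ b • (TM hw).base) =
      dist (φ a • (TM hw).base) (φ b • (TM hw).base) := by
    rw [dist_comm (φ a • (TM hw).base), tm_dist, tm_dist, tm_dist, h]
  have e2 := btw_dist (TM hw).tree.isRTree hab' (φ z • (TM hw).base)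
  rw [dist_comm, e1, g1, g2, (rp_base hw φ z) a, (rp_base hw φ z) b, ← tm_dist (hw := hw) γ (φ z),
    dist_comm (γ • (TM hw).base), e2, tm_dist, tm_dist, tm_dist, tm_dist]

theorem wl_head {i : Fin M} {g : FreeGroup (Fin M)} (h : g.toWord.head? = some (i, true)) :
    wl w g = w i + wl w ((FreeGroup.of i)⁻¹ * g) := by
  obtain ⟨l, hl⟩ := List.head?_eq_some_iff.mp h
  have hr : FreeGroup.IsReduced ((i, true) :: l) := by
    rw [← hl]; exact FreeGroup.isReduced_toWord
  have e : (FreeGroup.of i)⁻¹ * g = FreeGroup.mk l := by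
    rw [← FreeGroup.mk_toWord (x := g), hl, mk_cons', lt_true]
    group
  have hr' : FreeGroup.IsReduced l := List.IsChain.tail hr
  rw [e, wl_mk hr']
  unfold wl
  rw [hl, W_cons]

theorem wl_not_head {i : Fin M} {g : FreeGroup (Fin M)} (h : g.toWord.head? ≠ some (i, true)) :
    wl w ((FreeGroup.of i)⁻¹ * g) = w i + wl w g := by
  have e : (FreeGroup.of i)⁻¹ = lt (i, false) := (lt_false i).symm
  rw [e]
  unfold wl
  rw [toWord_lt_mul (x := g) (b := (i, false)) (by simpa [inv'] using h)]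
  rfl

theorem head_mul (δ : FreeGroup (Fin M)) (j : Fin M) :
    (δ * FreeGroup.of j).toWord.head? = δ.toWord.head? ∨ δ = 1 ∨ δ = (FreeGroup.of j)⁻¹ := by
  by_cases h1 : δ = 1
  · exact Or.inr (Or.inl h1)
  have hne : δ.toWord ≠ [] := fun h => h1 (FreeGroup.toWord_eq_nil_iff.mp h)
  by_cases h2 : δ.toWord.getLast? = some (j, false)
  · obtain ⟨l, hl⟩ := List.getLast?_eq_some_iff.mp h2
    have hr : FreeGroup.IsReduced (l ++ [(j, false)]) := by
      rw [← hl]; exact FreeGroup.isReduced_toWord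
    have e : δ = FreeGroup.mk l * (FreeGroup.of j)⁻¹ := by
      rw [← FreeGroup.mk_toWord (x := δ), hl, ← FreeGroup.mul_mk]
      rfl
    rcases eq_or_ne l [] with hn | hn
    · right; right
      rw [e, hn]
      change 1 * _ = _
      rw [one_mul]
    · left
      have e2 : δ * FreeGroup.of j = FreeGroup.mk l := by rw [e]; group
      have hr' : FreeGroup.IsReduced l := (List.isChain_append.mp hr).1
      rw [e2, toWord_mk_red hr', hl, List.head?_append_of_ne_nil _ hn]
  · left
    have := toWord_mul_lt (x := δ) (b := (j, true)) (by simpa [inv'] using h2)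
    rw [lt_true] at this
    rw [this, List.head?_append_of_ne_nil _ hne]

/-- Distance from a point of an edge to a vertex. -/
theorem dist_vertex {i : Fin M} {γ v : FreeGroup (Fin M)} {X Y V p : (lenOf hw φ).tree.T}
    (hX : Rp hw φ γ X) (hY : Rp hw φ (γ * FreeGroup.of i) Y) (hV : Rp hw φ v V)
    (hp : p ∈ Seg X Y) :
    ((γ⁻¹ * v).toWord.head? = some (i, true) → dist p V = dist p Y + dist Y V) ∧
    ((γ⁻¹ * v).toWord.head? ≠ some (i, true) → dist p V = dist p X + dist X V) := by
  have hXV : dist X V = wl w (γ⁻¹ * v) := hV.dist_eq hX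
  have hYV : dist Y V = wl w ((FreeGroup.of i)⁻¹ * (γ⁻¹ * v)) := by
    rw [hV.dist_eq hY]
    congr 1
    group
  have hXY : dist X Y = w i := by
    rw [hY.dist_eq hX, inv_mul_cancel_left]
    unfold wl
    rw [FreeGroup.toWord_of, W_cons, W_nil, add_zero]
  have hp' : dist X p + dist p Y = dist X Y := hp
  constructor
  · intro h
    have h1 := wl_head (w := w) h
    have t1 := dist_triangle X p V
    have t2 := dist_triangle p Y V
    rw [← hXV, ← hYV] at h1
    linarith
  · intro h
    have h1 := wl_not_head (w := w) h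
    have t1 := dist_triangle Y p V
    have t2 := dist_triangle p X V
    rw [← hXV, ← hYV] at h1
    rw [dist_comm Y p] at t1
    rw [dist_comm p X] at t2 ⊢
    linarith

/-- Two edges which share an interior point are equal. -/
theorem edge_eq {i j : Fin M} {γ γ' : FreeGroup (Fin M)} {X Y X' Y' p : (lenOf hw φ).tree.T}
    (hX : Rp hw φ γ X) (hY : Rp hw φ (γ * FreeGroup.of i) Y)
    (hX' : Rp hw φ γ' X') (hY' : Rp hw φ (γ' * FreeGroup.of j) Y')
    (hp : p ∈ Seg X Y) (hpX : p ≠ X) (hpY : p ≠ Y) (hp' : p ∈ Seg X' Y') : γ = γ' ∧ i = j := by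
  obtain ⟨a1, a2⟩ := dist_vertex hX hY hX' hp
  obtain ⟨b1, b2⟩ := dist_vertex hX hY hY' hp
  have h1 : dist X' p + dist p Y' = dist X' Y' := hp'
  have p1 : 0 < dist p X := dist_pos.mpr hpX
  have p2 : 0 < dist p Y := dist_pos.mpr hpY
  rw [dist_comm X' p] at h1
  have e : γ⁻¹ * (γ' * FreeGroup.of j) = γ⁻¹ * γ' * FreeGroup.of j := by group
  rw [e] at b1 b2
  by_cases c1 : (γ⁻¹ * γ').toWord.head? = some (i, true) <;>
    by_cases c2 : (γ⁻¹ * γ' * FreeGroup.of j).toWord.head? = some (i, true)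
  · exfalso
    rw [a1 c1, b1 c2] at h1
    have t := dist_triangle X' Y Y'
    rw [dist_comm X' Y] at t
    linarith
  · exfalso
    rcases head_mul (γ⁻¹ * γ') j with h | h | h
    · rw [h] at c2
      exact c2 c1
    · rw [h, FreeGroup.toWord_one] at c1
      simp at c1
    · rw [h, FreeGroup.toWord_inv, FreeGroup.toWord_of] at c1
      simp [FreeGroup.invRev] at c1
  · rcases head_mul (γ⁻¹ * γ') j with h | h | h
    · rw [h] at c2
      exact absurd c2 c1
    · rw [h, one_mul, FreeGroup.toWord_of] at c2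
      simp only [List.head?_cons, Option.some.injEq, Prod.mk.injEq, and_true] at c2
      exact ⟨(inv_mul_eq_one.mp h), c2.symm⟩
    · rw [h, inv_mul_cancel, FreeGroup.toWord_one] at c2
      simp at c2
  · exfalso
    rw [a2 c1, b2 c2] at h1
    have t := dist_triangle X' X Y'
    rw [dist_comm X' X] at t
    linarith

/-- Covering. -/
theorem cover {K : Set (lenOf hw φ).tree.T}
    (hK : ∀ (g : FreeGroup (Fin N)), ∀ p ∈ K, g • p ∈ K)
    (ho : (lenOf hw φ).base ∈ K) {G : Set (FreeGroup (Fin N))} (hG : Subgroup.closure G = ⊤)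
    (h : ∀ g ∈ G, Seg (lenOf hw φ).base (g • (lenOf hw φ).base) ⊆ K) (p : (lenOf hw φ).tree.T) :
    p ∈ K := by
  set o := (lenOf hw φ).base with hodef
  have htree := (lenOf hw φ).tree.isRTree
  have hiso := (lenOf hw φ).tree.isometric
  have htr : ∀ (g : FreeGroup (Fin N)) (x y p : (lenOf hw φ).tree.T), p ∈ Seg (g • x) (g • y) →
      g⁻¹ • p ∈ Seg x y := by
    intro g x y p hp
    change dist x (g⁻¹ • p) + dist (g⁻¹ • p) y = dist x y
    have hp' : dist (g • x) p + dist p (g • y) = dist (g • x) (g • y) := hp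
    rw [← hiso g x (g⁻¹ • p), ← hiso g (g⁻¹ • p) y, smul_inv_smul, ← hiso g x y]
    exact hp'
  have hKt : ∀ (g : FreeGroup (Fin N)) (x y : (lenOf hw φ).tree.T), Seg x y ⊆ K →
      Seg (g • x) (g • y) ⊆ K := by
    intro g x y hxy p hp
    have := hK g _ (hxy (htr g x y p hp))
    rwa [smul_inv_smul] at this
  have key : ∀ g : FreeGroup (Fin N), Seg o (g • o) ⊆ K := by
    intro g
    have hg : g ∈ Subgroup.closure G := by rw [hG]; trivial
    induction hg using Subgroup.closure_induction with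
    | mem x hx => exact h x hx
    | one =>
      intro p hp
      rw [one_smul] at hp
      rw [seg_self hp]
      exact ho
    | mul x y _ _ ihx ihy =>
      intro p hp
      rcases seg_split htree (x • o) hp with h1 | h1
      · exact ihx h1
      · rw [mul_smul] at h1
        exact hKt x _ _ ihy h1
    | inv x _ ih =>
      intro p hp
      have h1 : Seg (x⁻¹ • o) (x⁻¹ • x • o) ⊆ K := hKt x⁻¹ _ _ ih
      rw [inv_smul_smul] at h1
      exact h1 (seg_symm.mp hp)
  obtain ⟨a, b, hab⟩ := (lenOf hw φ).span p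
  have h1 : Seg (a • o) (a • (a⁻¹ * b) • o) ⊆ K := hKt a _ _ (key (a⁻¹ * b))
  rw [← mul_smul, mul_inv_cancel_left] at h1
  exact h1 hab

theorem lenOf_inCV' {ε : ℝ} (hε : 0 < ε) (hw1 : ∀ i, ε ≤ w i)
    (hφ : ∀ g, g ≠ 1 → φ g ≠ 1)
    {h : FreeGroup (Fin N)} (hh : FreeGroup.IsReduced ((φ h).toWord ++ (φ h).toWord))
    (hne : φ h ≠ 1) : (lenOf hw φ).tree.InCV := by
  have h1 : ∀ g, g ≠ 1 → ε ≤ (lenOf hw φ).L (g * g) - (lenOf hw φ).L g := by
    intro g hg
    change ε ≤ wl w (φ (g * g)) - wl w (φ g)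
    rw [map_mul]
    exact wl_sq hε.le hw1 _ (hφ g hg)
  have hc : FreeGroup.IsCyclicallyReduced (φ h).toWord := cyc_iff.mp hh
  refine ⟨LenFn.free_tree _ fun g hg => ?_, LenFn.minimal_tree _ h ?_ ?_,
    LenFn.discrete_tree _ hε h1⟩
  · have := h1 g hg
    linarith
  · change 0 < wl w (φ h)
    obtain ⟨a, l, hw'⟩ := exists_cons hne
    unfold wl
    rw [hw', W_cons]
    have := hw1 a.1
    have := W_nonneg hw l
    linarith
  · intro n
    change wl w (φ (h ^ n)) = n * wl w (φ h)
    rw [map_pow]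
    unfold wl
    rw [norm_pow_of_cyc hc]
    induction n with
    | zero => simp [W]
    | succ n ih =>
      rw [List.replicate_succ, List.flatten_cons, W_append, ih]
      push_cast
      ring

/-- The co-volume of the tree, given the edges of the quotient graph, one for each letter. -/
theorem hasCovolume_of (hw0 : ∀ i, 0 < w i) (hφ : Function.Injective φ)
    (γ : Fin M → FreeGroup (Fin M)) (X Y : Fin M → (lenOf hw φ).tree.T)
    (hX : ∀ i, Rp hw φ (γ i) (X i)) (hY : ∀ i, Rp hw φ (γ i * FreeGroup.of i) (Y i))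
    (hcov : ∀ p, ∃ (g : FreeGroup (Fin N)) (i : Fin M), g • p ∈ Seg (X i) (Y i)) :
    HasCovolume (lenOf hw φ).tree (∑ i, w i) := by
  have hd : ∀ i, dist (X i) (Y i) = w i := by
    intro i
    rw [(hY i).dist_eq (hX i), inv_mul_cancel_left]
    unfold wl
    rw [FreeGroup.toWord_of, W_cons, W_nil, add_zero]
  refine ⟨M, X, Y, ?_, hcov, ?_, ?_⟩
  · intro i h
    have := hd i
    rw [h, dist_self] at this
    exact (hw0 i).ne this
  · intro g i j p hp h1 h2 h3
    have hX' := (hX j).smul g⁻¹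
    have hY' := (hY j).smul g⁻¹
    rw [← mul_assoc] at hY'
    have hp' : p ∈ Seg (g⁻¹ • X j) (g⁻¹ • Y j) := by
      have hiso := (lenOf hw φ).tree.isometric g
      change dist (g⁻¹ • X j) p + dist p (g⁻¹ • Y j) = dist (g⁻¹ • X j) (g⁻¹ • Y j)
      rw [← hiso (g⁻¹ • X j) p, ← hiso p (g⁻¹ • Y j), ← hiso (g⁻¹ • X j), smul_inv_smul,
        smul_inv_smul]
      exact h3
    obtain ⟨e1, e2⟩ := edge_eq (hX i) (hY i) hX' hY' hp h1 h2 hp'
    subst e2
    refine ⟨?_, rfl⟩
    have : φ g⁻¹ = 1 := by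
      have h5 : φ g⁻¹ * γ i = 1 * γ i := by rw [one_mul]; exact e1.symm
      exact mul_right_cancel h5
    rw [map_inv, inv_eq_one] at this
    exact (map_eq_one_iff φ hφ).mp this
  · exact Finset.sum_congr rfl fun i _ => hd i

end Rep

end Pool.Agent.Q103.CV2
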